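import Pool.Agent.H23CT.Fam

/-!
# Condition (2) of Bloch and Beilinson and families parametrised by products of curves
-/

set_option autoImplicit false
set_option linter.unusedSectionVars false

open CategoryTheory MonoidalCategory Module Filter
open Pool.Agent.Y112.SR Pool.Agent.Y112.KD Pool.Agent.N64.AF Pool.Agent.H23NC Pool.Agent.H23OB

namespace Pool.Agent.H23CT

universe v u w t

variable {C : Type u} [Category.{v} C] [Preadditive C] [MonoidalCategory C]
  [MonoidalPreadditive C] [SymmetricCategory C] [Linear ℚ C] [MonoidalLinear ℚ C]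
  {K : Type w} [Field K] [Algebra ℚ K] {R : SuperRealisation C K} {G : Cycles R}
  {ι : Type t} {D : ι → Curve C}

/-- **One variety.** The class `x` vanishes if its products with the classes
`(p_0 - q_0) × ... × (p_m - q_m)` form countable families. -/
theorem eq_zero_of_ext (hD : ∀ i, (D i).Laws G) (hB : ∀ i, (D i).Baire) (hS : Separated D)
    {O : ∀ X : C, ℕ → (𝟙_ C ⟶ X) → Prop} (hO : ∀ i, (D i).Closed O) {X : C} {j m : ℕ}
    (h : ∀ L : List ι, L.length = m + 1 → ∀ f : pw D L ⟶ ext D X L,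
      (∀ z ∈ diffs D L, O (ext D X L) (j + (m + 1)) (z ≫ f)) →
        {y | ∃ z ∈ diffs D L, y = z ≫ f}.Countable)
    {x : 𝟙_ C ⟶ X} (hx : O X j x) : x = 0 := by
  by_contra hx0
  obtain ⟨L, hL, h3⟩ := exists_not_countable hD hB hS hx0 m
  apply h3
  refine h L hL (jn D x L) fun z hz => ?_
  have := closed_jn hO hx L z hz
  rwa [hL] at this

/-- **Thin families suffice.** -/
theorem isBB_iff_thin (hD : ∀ i, (D i).Laws G) (hB : ∀ i, (D i).Baire)
    (hS : Separated D) {F : ∀ X : C, ℤ → ℕ → Submodule ℚ (𝟙_ C ⟶ X)}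
    (hF : G.IsBBMod (fun _ => ⊤) F) :
    G.IsBB F ↔ ∃ᶠ j : ℕ in atTop, ∃ m, Thin D (InTop F) (m + 1) (j + (m + 1)) := by
  constructor
  · intro h
    refine Filter.Frequently.of_forall fun j => ⟨0, fun L _ X f hf => ?_⟩
    refine (Set.countable_singleton (0 : 𝟙_ C ⟶ X)).mono ?_
    rintro _ ⟨z, hz, rfl⟩
    exact eq_zero_of_isBB h (hf z hz)
  · intro h
    exact isBB_of hF (eq_zero_of_thin hD hB hS (fun i => closed_inTop hF (hD i)) h)

end Pool.Agent.H23CT
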