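import Pool.Agent.H23CT.Main

/-!
# Condition (2) of Bloch and Beilinson up to countable sets
-/

set_option autoImplicit false
set_option linter.unusedSectionVars false

open CategoryTheory MonoidalCategory Module Filter
open Pool.Agent.Y112.SR Pool.Agent.Y112.KD Pool.Agent.N64.AF Pool.Agent.H23NC Pool.Agent.H23OB

namespace Pool.Agent.H23CT

universe v u w t

variable {C : Type u} [Category.{v} C] [Preadditive C] [MonoidalCategory C]
  [MonoidalPreadditive C] [SymmetricCategory C] [Linear ℚ C] [MonoidalLinear ℚ C]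
  {K : Type w} [Field K] [Algebra ℚ K] {R : SuperRealisation C K} {G : Cycles R}

/-- A correspondence which maps the points of the curve to a countable set is constant on the
points. -/
def Curve.Baire (D : Curve C) : Prop :=
  ∀ (Y : C) (W : D.E ⟶ Y), {y | ∃ p ∈ D.pts, y = p ≫ W}.Countable →
    ∀ p ∈ D.pts, ∀ q ∈ D.pts, p ≫ W = q ≫ W

/-- Only the class `0` comes from all the curves. -/
def Separated {ι : Type t} (D : ι → Curve C) : Prop :=
  ∀ (X : C) (x : 𝟙_ C ⟶ X), (∀ i, x ∈ (D i).img X) → x = 0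

variable {ι : Type t} {D : ι → Curve C} {O : ∀ X : C, ℕ → (𝟙_ C ⟶ X) → Prop}

/-- For every class `x ≠ 0` there are a curve and two points of it whose difference has a product
with `x` that is not `0`. -/
lemma exists_prod_ne_zero (hD : ∀ i, (D i).Laws G) (hS : Separated D) {X : C} {x : 𝟙_ C ⟶ X}
    (hx : x ≠ 0) : ∃ i, ∃ p ∈ (D i).pts, ∃ q ∈ (D i).pts, x ≫ (times X p - times X q) ≠ 0 := by
  by_contra hcon
  push Not at hcon
  refine hx (hS X x fun i => Curve.mem_img (hD i) fun p hp q hq => ?_)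
  have h1 := hcon i p hp q hq
  rw [Preadditive.comp_sub] at h1
  exact sub_eq_zero.1 h1

lemma exists_higher (hD : ∀ i, (D i).Laws G) (hS : Separated D) (hO : ∀ i, (D i).Closed O)
    {X : C} {j : ℕ} {x : 𝟙_ C ⟶ X} (hx : O X j x) (hx0 : x ≠ 0) (m : ℕ) :
    ∃ (Y : C) (y : 𝟙_ C ⟶ Y), O Y (j + m) y ∧ y ≠ 0 := by
  induction m with
  | zero => exact ⟨X, x, hx, hx0⟩
  | succ m ih =>
    obtain ⟨Y, y, h1, h2⟩ := ih
    obtain ⟨i, p, hp, q, hq, h3⟩ := exists_prod_ne_zero hD hS h2
    exact ⟨_, _, hO i Y (j + m) y h1 p hp q hq, h3⟩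

/-- The classes in codimension `j` with the property do not contain a moving family which is
parametrised by one of the curves. -/
def Rigid (D : ι → Curve C) (O : ∀ X : C, ℕ → (𝟙_ C ⟶ X) → Prop) (j : ℕ) : Prop :=
  ∀ (i : ι) (X : C) (f : (D i).E ⟶ X),
    (∀ p ∈ (D i).pts, ∀ q ∈ (D i).pts, O X j ((p - q) ≫ f)) →
      ∀ p ∈ (D i).pts, ∀ q ∈ (D i).pts, p ≫ f = q ≫ f

/-- The absence of moving families in infinitely many codimensions implies vanishing in all
codimensions. -/
theorem eq_zero_of_rigid (hD : ∀ i, (D i).Laws G) (hS : Separated D)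
    (hO : ∀ i, (D i).Closed O) (h : ∃ᶠ j : ℕ in atTop, Rigid D O j) :
    ∀ X j x, O X j x → x = 0 := by
  intro X j x hx
  by_contra hx0
  obtain ⟨l, hl, hrig⟩ := Filter.frequently_atTop.1 h (j + 1)
  obtain ⟨m, rfl⟩ := Nat.exists_eq_add_of_le hl
  obtain ⟨Y, y, h1, h2⟩ := exists_higher hD hS hO hx hx0 m
  apply h2
  refine hS Y y fun i => Curve.mem_img (hD i) fun p hp q hq => ?_
  have h3 := hrig i (Y ⊗ (D i).E) (timesLeft y (D i).E) (fun p hp q hq => by
    have h5 := hO i Y (j + m) y h1 p hp q hq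
    have h6 : j + m + 1 = j + 1 + m := by omega
    rw [h6, Preadditive.comp_sub, ← comp_timesLeft, ← comp_timesLeft,
      ← Preadditive.sub_comp] at h5
    exact h5) p hp q hq
  rwa [comp_timesLeft, comp_timesLeft] at h3

/-- A countable set of classes does not contain a moving family. -/
lemma rigid_of_countable (hD : ∀ i, (D i).Laws G) (hB : ∀ i, (D i).Baire) {j : ℕ}
    (h : ∀ X : C, {x | O X j x}.Countable) : Rigid D O j := by
  intro i X f hf
  obtain ⟨q, hq⟩ := (hD i).nonempty
  refine hB i X f (((h X).image (fun z => z + q ≫ f)).mono ?_)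
  rintro _ ⟨p, hp, rfl⟩
  refine ⟨(p - q) ≫ f, hf p hp q hq, ?_⟩
  change (p - q) ≫ f + q ≫ f = p ≫ f
  rw [Preadditive.sub_comp, sub_add_cancel]

/-- **Rigidity suffices.** Filtrations with the conditions (1), (3), (4) satisfy (2) if, in
infinitely many codimensions, the spaces which should vanish do not contain moving families. -/
theorem isBB_iff_rigid (hD : ∀ i, (D i).Laws G) (hS : Separated D)
    {F : ∀ X : C, ℤ → ℕ → Submodule ℚ (𝟙_ C ⟶ X)} (hF : G.IsBBMod (fun _ => ⊤) F) :
    G.IsBB F ↔ ∃ᶠ j : ℕ in atTop, Rigid D (InTop F) j := by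
  constructor
  · intro h
    refine Filter.Frequently.of_forall fun j i X f hf p hp q hq => ?_
    have h1 := eq_zero_of_isBB h (hf p hp q hq)
    rw [Preadditive.sub_comp] at h1
    exact sub_eq_zero.1 h1
  · intro h
    exact isBB_of hF (eq_zero_of_rigid hD hS (fun i => closed_inTop hF (hD i)) h)

/-- **Countability suffices.** Filtrations with the conditions (1), (3), (4) satisfy (2) if the spaces
which should vanish are countable in infinitely many codimensions. -/
theorem isBB_iff_countable (hD : ∀ i, (D i).Laws G) (hB : ∀ i, (D i).Baire)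
    (hS : Separated D) {F : ∀ X : C, ℤ → ℕ → Submodule ℚ (𝟙_ C ⟶ X)}
    (hF : G.IsBBMod (fun _ => ⊤) F) :
    G.IsBB F ↔ ∃ᶠ j : ℕ in atTop, ∀ X : C, (F X j (j + 1) : Set (𝟙_ C ⟶ X)).Countable := by
  constructor
  · intro h
    refine Filter.Frequently.of_forall fun j X => ?_
    refine (Set.countable_singleton (0 : 𝟙_ C ⟶ X)).mono ?_
    exact fun x hx => eq_zero_of_isBB h hx
  · intro h
    exact (isBB_iff_rigid hD hS hF).2
      (h.mono fun j hj => rigid_of_countable (O := InTop F) hD hB hj)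

/-- The smallest filtration satisfies the conditions (1), (3), (4). -/
lemma low_is134 (hR : IsReal ℚ R) (hG : G.Laws) :
    G.IsBBMod (fun _ => ⊤) (fun X j ν => G.low ν X j) :=
  let h := Cycles.isBBMod_ob (G := G) hR hG
  { anti := h.anti, zero := h.zero, one := h.one, two := h.two, fin := fun _ _ => le_top,
    corr := h.corr, gr := h.gr }

lemma is134_of_isBB {F : ∀ X : C, ℤ → ℕ → Submodule ℚ (𝟙_ C ⟶ X)} (h : G.IsBB F) :
    G.IsBBMod (fun _ => ⊤) F :=
  { anti := h.anti, zero := h.zero, one := h.one, two := h.two, fin := fun _ _ => le_top,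
    corr := h.corr, gr := h.gr }

/-- A Bloch-Beilinson filtration exists if and only if the smallest filtration is one. -/
lemma exists_iff_low (hR : IsReal ℚ R) (hG : G.Laws) :
    (∃ F, G.IsBB F) ↔ G.IsBB (fun X j ν => G.low ν X j) := by
  constructor
  · rintro ⟨F, hF⟩
    exact isBB_of (low_is134 hR hG) fun X j x hx =>
      eq_zero_of_isBB hF (Cycles.low_le hR hF (j + 1) X j hx)
  · exact fun h => ⟨_, h⟩

end Pool.Agent.H23CT
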