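import Pool.Agent.H23OB.Low

/-!
# Curves in a category of correspondences
-/

set_option autoImplicit false
set_option linter.unusedSectionVars false

open CategoryTheory MonoidalCategory Module
open Pool.Agent.Y112.SR Pool.Agent.Y112.KD Pool.Agent.N64.AF Pool.Agent.H23NC Pool.Agent.H23OB

namespace Pool.Agent.H23CT

universe v u w

section

variable {C : Type u} [Category.{v} C] [MonoidalCategory C]

/-- The correspondence `x ↦ x × s` from `X` to `X × E`, where `s` is a cycle on `E`. -/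
def times (X : C) {E : C} (s : 𝟙_ C ⟶ E) : X ⟶ X ⊗ E := (ρ_ X).inv ≫ X ◁ s

/-- The correspondence `s ↦ x × s` from `E` to `X × E`, where `x` is a cycle on `X`. -/
def timesLeft {X : C} (x : 𝟙_ C ⟶ X) (E : C) : E ⟶ X ⊗ E := (λ_ E).inv ≫ x ▷ E

lemma comp_timesLeft {X E : C} (x : 𝟙_ C ⟶ X) (s : 𝟙_ C ⟶ E) :
    s ≫ timesLeft x E = x ≫ times X s := by
  unfold timesLeft times
  rw [← Category.assoc, leftUnitor_inv_naturality, Category.assoc, whisker_exchange,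
    ← Category.assoc x, rightUnitor_inv_naturality, Category.assoc, unitors_inv_equal]

/-- A curve: the object, its self-duality (given by the diagonal), the classes of its points and
its fundamental class. -/
structure Curve (C : Type u) [Category.{v} C] [MonoidalCategory C] where
  /-- the curve -/
  E : C
  /-- the duality of the curve with itself -/
  pair : ExactPairing E E
  /-- the classes of the points -/
  pts : Set (𝟙_ C ⟶ E)
  /-- the fundamental class -/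
  fund : 𝟙_ C ⟶ E

namespace Curve

variable (D : Curve C)

instance : ExactPairing D.E D.E := D.pair

/-- The cycle `a` on the curve as a correspondence from the curve to the point. -/
def trans (a : 𝟙_ C ⟶ D.E) : D.E ⟶ 𝟙_ C := (λ_ D.E).inv ≫ a ▷ D.E ≫ ε_ D.E D.E

/-- The correspondence from the curve to `X` which is given by a cycle on the product of `X` and
the curve. -/
def hat {X : C} (y : 𝟙_ C ⟶ X ⊗ D.E) : D.E ⟶ X :=
  (λ_ D.E).inv ≫ y ▷ D.E ≫ (α_ X D.E D.E).hom ≫ X ◁ ε_ D.E D.E ≫ (ρ_ X).hom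

/-- The trace over the curve of a correspondence from the curve to its product with `X`. -/
def ptr {X : C} (W : D.E ⟶ X ⊗ D.E) : 𝟙_ C ⟶ X :=
  η_ D.E D.E ≫ W ▷ D.E ≫ (α_ X D.E D.E).hom ≫ X ◁ ε_ D.E D.E ≫ (ρ_ X).hom

lemma coev_trans (p : 𝟙_ C ⟶ D.E) :
    η_ D.E D.E ≫ D.trans p ▷ D.E ≫ (λ_ D.E).hom = p := by
  unfold trans
  have h1 := ExactPairing.coevaluation_evaluation (X := D.E) (Y := D.E)
  have h2 : η_ D.E D.E ≫ ((λ_ D.E).inv ≫ p ▷ D.E ≫ ε_ D.E D.E) ▷ D.E ≫ (λ_ D.E).hom =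
      p ≫ (ρ_ D.E).inv ≫ (D.E ◁ η_ D.E D.E ≫ (α_ D.E D.E D.E).inv ≫
        ε_ D.E D.E ▷ D.E) ≫ (λ_ D.E).hom := by
    rw [rightUnitor_inv_naturality_assoc]
    simp only [comp_whiskerRight, Category.assoc]
    rw [← whisker_exchange_assoc]
    monoidal
  rw [h2, h1]
  simp

lemma ptr_trans_comp {X : C} (p : 𝟙_ C ⟶ D.E) (y : 𝟙_ C ⟶ X ⊗ D.E) :
    D.ptr (D.trans p ≫ y) = p ≫ D.hat y := by
  unfold ptr hat
  conv_rhs => rw [← D.coev_trans p]
  simp

lemma ptr_timesLeft {X : C} (x : 𝟙_ C ⟶ X) :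
    D.ptr (timesLeft x D.E) = (η_ D.E D.E ≫ ε_ D.E D.E) ≫ x := by
  unfold ptr timesLeft
  have h1 : ((λ_ D.E).inv ≫ x ▷ D.E) ▷ D.E ≫ (α_ X D.E D.E).hom ≫ X ◁ ε_ D.E D.E ≫
      (ρ_ X).hom = ε_ D.E D.E ≫ x := by
    have h2 : ((λ_ D.E).inv ≫ x ▷ D.E) ▷ D.E ≫ (α_ X D.E D.E).hom =
        (λ_ (D.E ⊗ D.E)).inv ≫ x ▷ (D.E ⊗ D.E) := by
      monoidal
    rw [← Category.assoc, h2, Category.assoc, ← whisker_exchange_assoc]
    monoidal
  rw [h1, Category.assoc]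

lemma comp_hat_times {X : C} (x : 𝟙_ C ⟶ X) (r s : 𝟙_ C ⟶ D.E) :
    r ≫ D.hat (x ≫ times X s) = (r ≫ D.trans s) ≫ x := by
  unfold hat trans times
  have h1 : (x ≫ (ρ_ X).inv ≫ X ◁ s) ▷ D.E ≫ (α_ X D.E D.E).hom ≫ X ◁ ε_ D.E D.E ≫
      (ρ_ X).hom = s ▷ D.E ≫ ε_ D.E D.E ≫ x := by
    have h2 : (x ≫ (ρ_ X).inv ≫ X ◁ s) ▷ D.E ≫ (α_ X D.E D.E).hom =
        s ▷ D.E ≫ (λ_ (D.E ⊗ D.E)).inv ≫ x ▷ (D.E ⊗ D.E) := by
      have h3 : x ≫ (ρ_ X).inv ≫ X ◁ s = s ≫ (λ_ D.E).inv ≫ x ▷ D.E :=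
        (comp_timesLeft x s).symm
      rw [h3]
      monoidal
    rw [← Category.assoc, h2, Category.assoc, Category.assoc, ← whisker_exchange_assoc]
    monoidal
  rw [h1]
  simp

end Curve

end

end Pool.Agent.H23CT
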