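import Pool.Agent.H23CT.Count

/-!
# Families of classes which are parametrised by products of curves
-/

set_option autoImplicit false
set_option linter.unusedSectionVars false

open CategoryTheory MonoidalCategory Module Filter
open Pool.Agent.Y112.SR Pool.Agent.Y112.KD Pool.Agent.N64.AF Pool.Agent.H23NC Pool.Agent.H23OB

namespace Pool.Agent.H23CT

universe v u w t

section

variable {C : Type u} [Category.{v} C] [Preadditive C] [MonoidalCategory C] {ι : Type t}

/-- The product of the curves in the list. -/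
def pw (D : ι → Curve C) : List ι → C
  | [] => 𝟙_ C
  | a :: L => pw D L ⊗ (D a).E

/-- The classes `(p_1 - q_1) × ... × (p_m - q_m)` on the product of the curves in the list, where
`p_i` and `q_i` are points of the `i`-th curve. -/
def diffs (D : ι → Curve C) : (L : List ι) → Set (𝟙_ C ⟶ pw D L)
  | [] => {𝟙 _}
  | a :: L => {y | ∃ z ∈ diffs D L, ∃ p ∈ (D a).pts, ∃ q ∈ (D a).pts,
      y = z ≫ times (pw D L) (p - q)}

/-- The families of classes in `O` in codimension `J`, which are given by a correspondence from a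
product of `m` of the curves, and parametrised by `m` pairs of points, are countable sets. -/
def Thin (D : ι → Curve C) (O : ∀ X : C, ℕ → (𝟙_ C ⟶ X) → Prop) (m J : ℕ) : Prop :=
  ∀ L : List ι, L.length = m → ∀ (X : C) (f : pw D L ⟶ X), (∀ z ∈ diffs D L, O X J (z ≫ f)) →
    {y | ∃ z ∈ diffs D L, y = z ≫ f}.Countable

/-- The product of `X` and of the curves in the list. -/
def ext (D : ι → Curve C) (X : C) : List ι → C
  | [] => X
  | a :: L => ext D X L ⊗ (D a).E

/-- The correspondence `z ↦ x × z`. -/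
def jn (D : ι → Curve C) {X : C} (x : 𝟙_ C ⟶ X) : (L : List ι) → (pw D L ⟶ ext D X L)
  | [] => x
  | a :: L => jn D x L ▷ (D a).E

lemma times_whisker {X Y E : C} (s : 𝟙_ C ⟶ E) (g : X ⟶ Y) :
    times X s ≫ g ▷ E = g ≫ times Y s := by
  unfold times
  rw [Category.assoc, whisker_exchange, rightUnitor_inv_naturality_assoc]

end

variable {C : Type u} [Category.{v} C] [Preadditive C] [MonoidalCategory C]
  [MonoidalPreadditive C] [SymmetricCategory C] [Linear ℚ C] [MonoidalLinear ℚ C]
  {K : Type w} [Field K] [Algebra ℚ K] {R : SuperRealisation C K} {G : Cycles R}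

lemma times_diff {X E : C} (s t : 𝟙_ C ⟶ E) : times X (s - t) = times X s - times X t := by
  unfold times
  rw [← Preadditive.comp_sub]
  congr 1
  rw [sub_eq_add_neg, sub_eq_add_neg, MonoidalPreadditive.whiskerLeft_add,
    ← neg_one_smul ℚ t, MonoidalLinear.whiskerLeft_smul, neg_one_smul]

variable {ι : Type t} {D : ι → Curve C} {O : ∀ X : C, ℕ → (𝟙_ C ⟶ X) → Prop}

lemma closed_jn (hO : ∀ i, (D i).Closed O) {X : C} {j : ℕ} {x : 𝟙_ C ⟶ X} (hx : O X j x)
    (L : List ι) : ∀ z ∈ diffs D L, O (ext D X L) (j + L.length) (z ≫ jn D x L) := by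
  induction L with
  | nil =>
    intro z hz
    have hz' : z = 𝟙 _ := hz
    rw [hz']
    exact (Category.id_comp x).symm ▸ hx
  | cons a L ih =>
    rintro _ ⟨z, hz, p, hp, q, hq, rfl⟩
    have h1 := hO a _ _ _ (ih z hz) p hp q hq
    change O (ext D X L ⊗ (D a).E) (j + L.length + 1)
      ((z ≫ times (pw D L) (p - q)) ≫ (jn D x L ▷ (D a).E))
    rw [Category.assoc, times_whisker, ← Category.assoc, times_diff]
    exact h1

lemma exists_jn (hD : ∀ i, (D i).Laws G) (hS : Separated D) {X : C} {x : 𝟙_ C ⟶ X}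
    (hx : x ≠ 0) (m : ℕ) : ∃ L : List ι, L.length = m ∧ ∃ z ∈ diffs D L, z ≫ jn D x L ≠ 0 := by
  induction m with
  | zero => exact ⟨[], rfl, 𝟙 _, rfl, by
      change 𝟙 _ ≫ x ≠ 0
      rwa [Category.id_comp]⟩
  | succ m ih =>
    obtain ⟨L, hL, z, hz, hne⟩ := ih
    obtain ⟨a, p, hp, q, hq, h⟩ := exists_prod_ne_zero hD hS hne
    refine ⟨a :: L, by rw [List.length_cons, hL], z ≫ times (pw D L) (p - q),
      ⟨z, hz, p, hp, q, hq, rfl⟩, ?_⟩
    change (z ≫ times (pw D L) (p - q)) ≫ (jn D x L ▷ (D a).E) ≠ 0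
    rw [Category.assoc, times_whisker, ← Category.assoc, times_diff]
    exact h

/-- The families of products with a class `x ≠ 0` are not countable. -/
lemma exists_not_countable (hD : ∀ i, (D i).Laws G) (hB : ∀ i, (D i).Baire) (hS : Separated D)
    {X : C} {x : 𝟙_ C ⟶ X} (hx : x ≠ 0) (m : ℕ) : ∃ L : List ι, L.length = m + 1 ∧
      ¬ {y | ∃ z ∈ diffs D L, y = z ≫ jn D x L}.Countable := by
  obtain ⟨L, hL, z, hz, hne⟩ := exists_jn hD hS hx m
  by_contra hcon
  push Not at hcon
  refine hne (hS _ _ fun a => Curve.mem_img (hD a) fun p hp q hq => ?_)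
  have h1 : ({y | ∃ z' ∈ diffs D (a :: L), y = z' ≫ jn D x (a :: L)} :
      Set (𝟙_ C ⟶ ext D X L ⊗ (D a).E)).Countable := hcon (a :: L) (by rw [List.length_cons, hL])
  obtain ⟨q₀, hq₀⟩ := (hD a).nonempty
  rw [← comp_timesLeft, ← comp_timesLeft]
  refine hB a _ (timesLeft (z ≫ jn D x L) (D a).E)
    ((h1.image (fun y : (𝟙_ C ⟶ ext D X L ⊗ (D a).E) =>
      y + q₀ ≫ timesLeft (z ≫ jn D x L) (D a).E)).mono ?_) p hp q hq
  rintro _ ⟨p, hp, rfl⟩
  refine ⟨(z ≫ times (pw D L) (p - q₀)) ≫ (jn D x L ▷ (D a).E),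
    ⟨_, ⟨z, hz, p, hp, q₀, hq₀, rfl⟩, rfl⟩, ?_⟩
  change ((z ≫ times (pw D L) (p - q₀)) ≫ (jn D x L ▷ (D a).E)) +
    q₀ ≫ timesLeft (z ≫ jn D x L) (D a).E = p ≫ timesLeft (z ≫ jn D x L) (D a).E
  rw [Category.assoc, times_whisker, ← Category.assoc, times_diff, comp_timesLeft,
    comp_timesLeft, Preadditive.comp_sub, sub_add_cancel]

/-- **Thin families suffice.** If in arbitrarily large codimensions `j + m`, with `m ≥ 1` and `j`
arbitrarily large, all families of classes in `O` which are parametrised by products of `m` curves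
are countable, then all classes in `O` vanish. -/
theorem eq_zero_of_thin (hD : ∀ i, (D i).Laws G) (hB : ∀ i, (D i).Baire) (hS : Separated D)
    (hO : ∀ i, (D i).Closed O) (h : ∃ᶠ j : ℕ in atTop, ∃ m, Thin D O (m + 1) (j + (m + 1))) :
    ∀ X j x, O X j x → x = 0 := by
  intro X j x hx
  by_contra hx0
  obtain ⟨l, hl, m, hthin⟩ := Filter.frequently_atTop.1 h j
  obtain ⟨n, rfl⟩ := Nat.exists_eq_add_of_le hl
  obtain ⟨Y, y, h1, h2⟩ := exists_higher hD hS hO hx hx0 n
  obtain ⟨L, hL, h3⟩ := exists_not_countable hD hB hS h2 m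
  apply h3
  refine hthin L hL _ (jn D y L) fun z hz => ?_
  have := closed_jn hO h1 L z hz
  rwa [hL] at this

/-- Families in a countable set are countable. -/
lemma thin_of_countable {J : ℕ} (h : ∀ X : C, {x | O X J x}.Countable) (m : ℕ) :
    Thin D O m J := by
  intro L _ X f hf
  refine (h X).mono ?_
  rintro _ ⟨z, hz, rfl⟩
  exact hf z hz

end Pool.Agent.H23CT
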