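import Pool.Agent.H23CT.Curve

/-!
# Products with the differences of points of a curve
-/

set_option autoImplicit false
set_option linter.unusedSectionVars false

open CategoryTheory MonoidalCategory Module
open Pool.Agent.Y112.SR Pool.Agent.Y112.KD Pool.Agent.N64.AF Pool.Agent.H23NC Pool.Agent.H23OB

namespace Pool.Agent.H23CT

universe v u w

variable {C : Type u} [Category.{v} C] [Preadditive C] [MonoidalCategory C]
  [MonoidalPreadditive C] [SymmetricCategory C] [Linear ℚ C] [MonoidalLinear ℚ C]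
  {K : Type w} [Field K] [Algebra ℚ K] {R : SuperRealisation C K} {G : Cycles R}

namespace Curve

/-- The cycles on `X` which come from the curve: the sums of the images of differences of two points
of the curve under correspondences. -/
def img (D : Curve C) (X : C) : Submodule ℚ (𝟙_ C ⟶ X) :=
  Submodule.span ℚ {y | ∃ p ∈ D.pts, ∃ q ∈ D.pts, ∃ f : D.E ⟶ X, y = (p - q) ≫ f}

/-- The known properties of a smooth projective curve of positive genus over an algebraically closed
field which is not countable. -/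
structure Laws (D : Curve C) (G : Cycles R) : Prop where
  nonempty : D.pts.Nonempty
  fund_fund : D.fund ≫ D.trans D.fund = 0
  fund_pt : ∀ p ∈ D.pts, D.fund ≫ D.trans p = 𝟙 _
  pt_fund : ∀ p ∈ D.pts, p ≫ D.trans D.fund = 𝟙 _
  genus : ∃ g : ℕ, 0 < g ∧ η_ D.E D.E ≫ ε_ D.E D.E = (2 - 2 * g : ℚ) • 𝟙 (𝟙_ C)
  pt_deg : ∀ (X : C), ∀ p ∈ D.pts, times X p ∈ G.deg X (X ⊗ D.E) 1
  pt_hom : ∀ p ∈ D.pts, ∀ q ∈ D.pts, R.H.map p = R.H.map q
  spread : ∀ (Y : C) (W : D.E ⟶ Y), (∀ p ∈ D.pts, p ≫ W = 0) →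
    W ∈ Submodule.span ℚ {w | ∃ p ∈ D.pts, ∃ y : 𝟙_ C ⟶ Y, w = D.trans p ≫ y}

variable {D : Curve C}

/-- The difference of the trace of `W` and of the restriction of the image of the fundamental class
to the point `q`. -/
def defect (D : Curve C) (q : 𝟙_ C ⟶ D.E) {X : C} (W : D.E ⟶ X ⊗ D.E) : 𝟙_ C ⟶ X :=
  D.ptr W - q ≫ D.hat (D.fund ≫ W)

lemma defect_add (q : 𝟙_ C ⟶ D.E) {X : C} (W V : D.E ⟶ X ⊗ D.E) :
    D.defect q (W + V) = D.defect q W + D.defect q V := by
  unfold defect ptr hat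
  simp only [MonoidalPreadditive.add_whiskerRight, Preadditive.comp_add, Preadditive.add_comp]
  abel

lemma defect_smul (q : 𝟙_ C ⟶ D.E) {X : C} (c : ℚ) (W : D.E ⟶ X ⊗ D.E) :
    D.defect q (c • W) = c • D.defect q W := by
  unfold defect ptr hat
  simp only [MonoidalLinear.smul_whiskerRight, Linear.comp_smul, Linear.smul_comp, smul_sub]

lemma defect_zero (q : 𝟙_ C ⟶ D.E) {X : C} : D.defect q (0 : D.E ⟶ X ⊗ D.E) = 0 := by
  have h := defect_smul (D := D) q (0 : ℚ) (0 : D.E ⟶ X ⊗ D.E)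
  rw [zero_smul, zero_smul] at h
  exact h

lemma defect_sub (q : 𝟙_ C ⟶ D.E) {X : C} (W V : D.E ⟶ X ⊗ D.E) :
    D.defect q (W - V) = D.defect q W - D.defect q V := by
  rw [sub_eq_add_neg, defect_add, ← neg_one_smul ℚ V, defect_smul, neg_one_smul, ← sub_eq_add_neg]

lemma defect_trans (hD : D.Laws G) {p q : 𝟙_ C ⟶ D.E} (hp : p ∈ D.pts) {X : C}
    (y : 𝟙_ C ⟶ X ⊗ D.E) : D.defect q (D.trans p ≫ y) = (p - q) ≫ D.hat y := by
  unfold defect
  rw [D.ptr_trans_comp, ← Category.assoc, hD.fund_pt p hp, Category.id_comp, Preadditive.sub_comp]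

lemma defect_mem (hD : D.Laws G) {q : 𝟙_ C ⟶ D.E} (hq : q ∈ D.pts) {X : C}
    {W : D.E ⟶ X ⊗ D.E} (hW : ∀ p ∈ D.pts, p ≫ W = 0) : D.defect q W ∈ D.img X := by
  have h := hD.spread _ W hW
  clear hW
  induction h using Submodule.span_induction with
  | mem w h =>
    obtain ⟨p, hp, y, rfl⟩ := h
    rw [defect_trans hD hp]
    exact Submodule.subset_span ⟨p, hp, q, hq, _, rfl⟩
  | zero => rw [defect_zero]; exact Submodule.zero_mem _
  | add a b _ _ ha hb => rw [defect_add]; exact Submodule.add_mem _ ha hb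
  | smul c a _ ha => rw [defect_smul]; exact Submodule.smul_mem _ c ha

/-- **The main lemma.** If the products of `x` with all differences of points of a curve of positive
genus vanish, then `x` comes from this curve. -/
theorem mem_img (hD : D.Laws G) {X : C} {x : 𝟙_ C ⟶ X}
    (hx : ∀ p ∈ D.pts, ∀ q ∈ D.pts, x ≫ times X p = x ≫ times X q) : x ∈ D.img X := by
  obtain ⟨q, hq⟩ := hD.nonempty
  obtain ⟨g, hg, hg2⟩ := hD.genus
  set W : D.E ⟶ X ⊗ D.E := timesLeft x D.E - D.trans D.fund ≫ x ≫ times X q with hW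
  have h1 : ∀ p ∈ D.pts, p ≫ W = 0 := by
    intro p hp
    rw [hW, Preadditive.comp_sub, comp_timesLeft, ← Category.assoc p, hD.pt_fund p hp,
      Category.id_comp, hx p hp q hq, sub_self]
  have h2 := defect_mem hD hq h1
  have h3 : D.defect q (timesLeft x D.E) = (1 - 2 * g : ℚ) • x := by
    unfold defect
    rw [D.ptr_timesLeft, hg2, comp_timesLeft, D.comp_hat_times,
      show q ≫ D.trans D.fund = 𝟙 _ from hD.pt_fund q hq, Linear.smul_comp, Category.id_comp]
    module
  have h4 : D.defect q (D.trans D.fund ≫ x ≫ times X q) = x := by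
    unfold defect
    rw [D.ptr_trans_comp, D.comp_hat_times, hD.fund_pt q hq, Category.id_comp,
      ← Category.assoc D.fund, hD.fund_fund, Limits.zero_comp]
    unfold hat
    simp
  rw [hW, defect_sub, h3, h4] at h2
  have h5 : (1 - 2 * g : ℚ) • x - x = (-(2 * g) : ℚ) • x := by module
  rw [h5] at h2
  have h6 : (-(2 * g) : ℚ) ≠ 0 := by
    have : (0 : ℚ) < g := by exact_mod_cast hg
    linarith
  exact (Submodule.smul_mem_iff _ h6).1 h2

/-- The products with the differences of points come from the curve. -/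
lemma prod_mem_img {p q : 𝟙_ C ⟶ D.E} (hp : p ∈ D.pts) (hq : q ∈ D.pts) {X : C}
    (x : 𝟙_ C ⟶ X) : x ≫ (times X p - times X q) ∈ D.img (X ⊗ D.E) := by
  rw [Preadditive.comp_sub, ← comp_timesLeft, ← comp_timesLeft, ← Preadditive.sub_comp]
  exact Submodule.subset_span ⟨p, hp, q, hq, _, rfl⟩

/-- The cycles which come from the curve are stable under all correspondences. -/
lemma img_stable {X Y : C} {x : 𝟙_ C ⟶ X} (f : X ⟶ Y) (hx : x ∈ D.img X) :
    x ≫ f ∈ D.img Y := by
  induction hx using Submodule.span_induction with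
  | mem w h =>
    obtain ⟨p, hp, q, hq, g, rfl⟩ := h
    rw [Category.assoc]
    exact Submodule.subset_span ⟨p, hp, q, hq, _, rfl⟩
  | zero => rw [Limits.zero_comp]; exact Submodule.zero_mem _
  | add a b _ _ ha hb => rw [Preadditive.add_comp]; exact Submodule.add_mem _ ha hb
  | smul c a _ ha => rw [Linear.smul_comp]; exact Submodule.smul_mem _ c ha

/-- Filtrations with the conditions (3) and (4): the product with a difference of points raises the
level and the codimension by one. -/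
lemma prod_mem {J : ∀ X : C, Submodule ℚ (𝟙_ C ⟶ X)}
    {F : ∀ X : C, ℤ → ℕ → Submodule ℚ (𝟙_ C ⟶ X)} (hF : G.IsBBMod J F) (hD : D.Laws G)
    {p q : 𝟙_ C ⟶ D.E} (hp : p ∈ D.pts) (hq : q ∈ D.pts) {X : C} {j : ℤ} {ν : ℕ}
    {x : 𝟙_ C ⟶ X} (hx : x ∈ F X j ν) :
    x ≫ (times X p - times X q) ∈ F (X ⊗ D.E) (j + 1) (ν + 1) := by
  refine hF.gr X (X ⊗ D.E) j 1 ν x _ hx
    (Submodule.sub_mem _ (hD.pt_deg X p hp) (hD.pt_deg X q hq)) ?_
  intro a _
  have h1 : R.H.map (times X p - times X q) = 0 := by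
    have h2 : times X p - times X q = (ρ_ X).inv ≫ X ◁ (p - q) := by
      unfold times
      rw [← Preadditive.comp_sub]
      congr 1
      rw [sub_eq_add_neg, sub_eq_add_neg, MonoidalPreadditive.whiskerLeft_add,
        ← neg_one_smul ℚ q, MonoidalLinear.whiskerLeft_smul, neg_one_smul]
    have h3 : R.H.map (p - q) = 0 := by
      rw [Functor.map_sub, hD.pt_hom p hp q hq, sub_self]
    rw [h2, R.H.map_comp, Functor.Monoidal.map_whiskerLeft, h3]
    simp
  change (R.H.map (times X p - times X q)).hom a = 0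
  rw [h1]
  rfl

end Curve

end Pool.Agent.H23CT
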