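import Pool.Agent.H23CT.Law

/-!
# Condition (2) of Bloch and Beilinson and cycles which come from curves
-/

set_option autoImplicit false
set_option linter.unusedSectionVars false

open CategoryTheory MonoidalCategory Module Filter
open Pool.Agent.Y112.SR Pool.Agent.Y112.KD Pool.Agent.N64.AF Pool.Agent.H23NC Pool.Agent.H23OB

namespace Pool.Agent.H23CT

universe v u w t

variable {C : Type u} [Category.{v} C] [Preadditive C] [MonoidalCategory C]
  [MonoidalPreadditive C] [SymmetricCategory C] [Linear ℚ C] [MonoidalLinear ℚ C]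
  {K : Type w} [Field K] [Algebra ℚ K] {R : SuperRealisation C K} {G : Cycles R}

namespace Curve

/-- A property of cycles of codimension `j` which is inherited by the products with the differences
of points of a curve, in codimension `j + 1`. -/
def Closed (D : Curve C) (O : ∀ X : C, ℕ → (𝟙_ C ⟶ X) → Prop) : Prop :=
  ∀ (X : C) (j : ℕ) (x : 𝟙_ C ⟶ X), O X j x → ∀ p ∈ D.pts, ∀ q ∈ D.pts,
    O (X ⊗ D.E) (j + 1) (x ≫ (times X p - times X q))

/-- It is enough to consider cycles which come from the curve. -/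
lemma eq_zero_of_img {D : Curve C} (hD : D.Laws G) {O : ∀ X : C, ℕ → (𝟙_ C ⟶ X) → Prop}
    (hO : D.Closed O) (h : ∀ X j x, O X j x → x ∈ D.img X → x = 0) :
    ∀ X j x, O X j x → x = 0 := by
  intro X j x hx
  refine h X j x hx (mem_img hD fun p hp q hq => ?_)
  have h1 := h _ _ _ (hO X j x hx p hp q hq) (prod_mem_img hp hq x)
  rw [Preadditive.comp_sub] at h1
  exact sub_eq_zero.1 h1

/-- It is enough to consider cycles which come from all of finitely many curves. -/
lemma eq_zero_of_imgs {ι : Type t} {D : ι → Curve C} (hD : ∀ i, (D i).Laws G)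
    {O : ∀ X : C, ℕ → (𝟙_ C ⟶ X) → Prop} (hO : ∀ i, (D i).Closed O) (s : Finset ι)
    (h : ∀ X j x, O X j x → (∀ i ∈ s, x ∈ (D i).img X) → x = 0) :
    ∀ X j x, O X j x → x = 0 := by
  classical
  induction s using Finset.induction_on with
  | empty => exact fun X j x hx => h X j x hx (by simp)
  | insert i s hi ih =>
    apply ih
    have h1 : (D i).Closed (fun X j x => O X j x ∧ ∀ k ∈ s, x ∈ (D k).img X) := by
      intro X j x hx p hp q hq
      exact ⟨hO i X j x hx.1 p hp q hq, fun k hk => img_stable _ (hx.2 k hk)⟩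
    have h2 := eq_zero_of_img (hD i) h1 fun X j x hx hxi => h X j x hx.1 fun k hk => by
      rcases Finset.mem_insert.1 hk with rfl | hk
      · exact hxi
      · exact hx.2 k hk
    exact fun X j x hx hxs => h2 X j x ⟨hx, hxs⟩

end Curve

/-- The cycles in the first spaces of the filtration which should vanish. -/
def InTop (F : ∀ X : C, ℤ → ℕ → Submodule ℚ (𝟙_ C ⟶ X)) (X : C) (j : ℕ) (x : 𝟙_ C ⟶ X) : Prop :=
  x ∈ F X j (j + 1)

lemma closed_inTop {F : ∀ X : C, ℤ → ℕ → Submodule ℚ (𝟙_ C ⟶ X)}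
    (hF : G.IsBBMod (fun _ => ⊤) F) {D : Curve C} (hD : D.Laws G) : D.Closed (InTop F) := by
  intro X j x hx p hp q hq
  have h := Curve.prod_mem hF hD hp hq (hx : x ∈ F X j (j + 1))
  unfold InTop
  push_cast
  exact h

lemma isBB_of {F : ∀ X : C, ℤ → ℕ → Submodule ℚ (𝟙_ C ⟶ X)}
    (hF : G.IsBBMod (fun _ => ⊤) F) (h : ∀ X j x, InTop F X j x → x = 0) : G.IsBB F where
  anti := hF.anti
  zero := hF.zero
  one := hF.one
  two := hF.two
  fin X j x hx := (Submodule.mem_bot ℚ).2 (h X j x hx)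
  corr := hF.corr
  gr := hF.gr

lemma eq_zero_of_isBB {F : ∀ X : C, ℤ → ℕ → Submodule ℚ (𝟙_ C ⟶ X)} (hF : G.IsBB F) {X : C}
    {j : ℕ} {x : 𝟙_ C ⟶ X} (hx : InTop F X j x) : x = 0 :=
  (Submodule.mem_bot ℚ).1 (hF.fin X j hx)

/-- **One curve suffices.** Filtrations with the conditions (1), (3), (4) satisfy (2) if (2) holds for
the cycles which come from all of finitely many given curves of positive genus. -/
theorem isBB_iff_imgs {ι : Type t} {D : ι → Curve C} (hD : ∀ i, (D i).Laws G)
    {F : ∀ X : C, ℤ → ℕ → Submodule ℚ (𝟙_ C ⟶ X)} (hF : G.IsBBMod (fun _ => ⊤) F)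
    (s : Finset ι) :
    G.IsBB F ↔ ∀ (X : C) (j : ℕ), ∀ x ∈ F X j (j + 1), (∀ i ∈ s, x ∈ (D i).img X) → x = 0 := by
  constructor
  · exact fun h X j x hx _ => eq_zero_of_isBB h hx
  · intro h
    exact isBB_of hF (Curve.eq_zero_of_imgs hD (fun i => closed_inTop hF (hD i)) s
      fun X j x hx hxs => h X j x hx hxs)

end Pool.Agent.H23CT
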