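import Pool.Agent.H23CT.Thin
import Pool.Agent.H23OB.Main

/-!
# Stable systems of spaces of cycles are zero or large
-/

set_option autoImplicit false
set_option linter.unusedSectionVars false

open CategoryTheory MonoidalCategory Module Filter Topology
open Pool.Agent.Y112.SR Pool.Agent.Y112.KD Pool.Agent.N64.AF Pool.Agent.H23NC Pool.Agent.H23OB
open scoped ENNReal

namespace Pool.Agent.H23CT

universe v u w t

variable {C : Type u} [Category.{v} C] [Preadditive C] [MonoidalCategory C]
  [MonoidalPreadditive C] [SymmetricCategory C] [Linear ℚ C] [MonoidalLinear ℚ C]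
  {K : Type w} [Field K] [Algebra ℚ K] {R : SuperRealisation C K} {G : Cycles R}
  {ι : Type t} {D : ι → Curve C}

lemma closed_of_stable {J : ∀ X : C, Submodule ℚ (𝟙_ C ⟶ X)} (hJ : Cycles.Stable J)
    (D : Curve C) : D.Closed (fun X _ x => x ∈ J X) :=
  fun X _ x hx _ _ _ _ => hJ X _ x _ hx

/-- A stable system of countable spaces of cycles is zero. -/
theorem eq_bot_of_countable (hD : ∀ i, (D i).Laws G) (hB : ∀ i, (D i).Baire)
    (hS : Separated D) {J : ∀ X : C, Submodule ℚ (𝟙_ C ⟶ X)} (hJ : Cycles.Stable J)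
    (h : ∀ X, (J X : Set (𝟙_ C ⟶ X)).Countable) (X : C) : J X = ⊥ := by
  rw [Submodule.eq_bot_iff]
  intro x hx
  exact eq_zero_of_thin (O := fun X _ x => x ∈ J X) hD hB hS
    (fun i => closed_of_stable hJ (D i))
    (Filter.Frequently.of_forall fun j => ⟨0, thin_of_countable h _⟩) X 0 x hx

lemma countable_of_finite {V : Type*} [AddCommGroup V] [Module ℚ V] (S : Submodule ℚ V)
    [Module.Finite ℚ S] : (S : Set V).Countable := by
  have h1 : Countable (Fin (finrank ℚ S) → ℚ) := inferInstance
  have h2 : Countable S := (Module.finBasis ℚ S).equivFun.toEquiv.injective.countable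
  exact Set.countable_coe_iff.1 h2

section

variable [RightRigidCategory C] [IsAlgClosed K]

/-- **Zero or unbounded.** A Bloch-Beilinson filtration exists if and only if the dimension of the
obstruction on `T ^ n`, divided by the rank of all cycles modulo numerical equivalence, does not tend to
infinity for any `T`. -/
theorem exists_isBB_iff_bounded (hR : IsReal ℚ R) (hG : G.Laws)
    (hpair : ∀ X : C, Nonempty (ExactPairing X X)) (hunit : ∀ X : C, HasUnit X)
    (hD : ∀ i, (D i).Laws G) (hB : ∀ i, (D i).Baire) (hS : Separated D) :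
    (∃ F, G.IsBB F) ↔ ∀ T : C, ∃ c : ℝ≥0∞, c ≠ ⊤ ∧ ∃ᶠ n in atTop,
      share (G.ob (tp T n)) ≤ c := by
  constructor
  · intro h T
    obtain ⟨c, hc, h1⟩ := (exists_isBB_iff_share hR hG hpair hunit).1 h T
    exact ⟨c, ne_top_of_lt hc, h1⟩
  · intro h
    rw [Cycles.exists_isBB_iff hR hG]
    refine eq_bot_of_countable hD hB hS (Cycles.ob_stable (G := G)) fun T => ?_
    obtain ⟨_⟩ := hpair T
    obtain ⟨N, h1, -, -, -, h2⟩ := ob_law (G := G) hR hG (hunit T)
    obtain ⟨c, hc, hf⟩ := h T
    have hN : N ≠ ⊤ := by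
      intro hN
      rw [hN] at h1
      have h4 := h1.eventually (lt_mem_nhds (lt_top_iff_ne_top.2 hc))
      obtain ⟨n, h5, h6⟩ := (hf.and_eventually h4).exists
      exact absurd (h6.trans_le h5) (lt_irrefl _)
    have h3 := (h2 hN).1 1
    have h4 := countable_of_finite (G.ob (tp T 1))
    refine (h4.image (fun z => z ≫ (λ_ T).hom)).mono ?_
    intro z hz
    exact ⟨z ≫ (λ_ T).inv, Cycles.ob_stable _ _ z (λ_ T).inv hz, by
      change (z ≫ (λ_ T).inv) ≫ (λ_ T).hom = z
      rw [Category.assoc, Iso.inv_hom_id, Category.comp_id]⟩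

end

/-- A Bloch-Beilinson filtration exists if and only if the obstruction is countable. -/
theorem exists_isBB_iff_ob_countable (hR : IsReal ℚ R) (hG : G.Laws)
    (hD : ∀ i, (D i).Laws G) (hB : ∀ i, (D i).Baire) (hS : Separated D) :
    (∃ F, G.IsBB F) ↔ ∀ X : C, (G.ob X : Set (𝟙_ C ⟶ X)).Countable := by
  rw [Cycles.exists_isBB_iff hR hG]
  constructor
  · intro h X
    rw [h X]
    exact Set.countable_singleton _
  · exact eq_bot_of_countable hD hB hS (Cycles.ob_stable (G := G))

end Pool.Agent.H23CT
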